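import Pool.Agent.R650.Ent

/-!
# MP_df8e9b_al: the entropy of an action is at most the entropy of its restriction

For every left action of an amenable group `G` on an abelian group `A` and every subgroup `H` of
`G` the entropies of the restricted action bound the entropies of the action:
`h_alg(α) ≤ h_alg(α|H)` and `ent(α) ≤ ent(α|H)`.

The definitions (in `Pool/Agent/R650/EntDefs.lean`):

* `IsRightFolner F`: `F` is a right Folner net (non-empty finite `F i`, `|F_i g Δ F_i| / |F_i| → 0`
  for every `g`);
* `traj F X`: the trajectory `T_F(X) = ∑_{g ∈ F} g • X`;
* `Halg F X`: the entropy of `X`, the upper limit of `log |T_{F_i}(X)| / |F_i|`;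
* `halg A F`, `ent A F`: its supremum over all finite non-empty subsets, respectively over all
  finite subgroups, `X` of `A`.

The entropies are computed along arbitrary right Folner nets `F` of `G` and `E` of `H`.  (The
lemma `tendsto_Halg` of `Pool/Agent/R650/Ent.lean` shows that the upper limits are limits and do not depend on
the nets.)
-/

set_option autoImplicit false

namespace Pool.Agent.Results.MP_df8e9b_al.RestrictionBound

open Pool.Agent.R650.Ent (IsRightFolner halg ent)

universe u v w w'

/-- Entropy does not increase when one passes from a subgroup to the whole group. -/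
theorem result {G : Type u} [Group G] {A : Type v} [AddCommGroup A] [DistribMulAction G A]
    (H : Subgroup G)
    {I : Type w} [Preorder I] [IsDirected I (· ≤ ·)] [Nonempty I]
    (F : I → Finset G) (hF : IsRightFolner F)
    {J : Type w'} [Preorder J] [IsDirected J (· ≤ ·)] [Nonempty J]
    (E : J → Finset H) (hE : IsRightFolner E) :
    halg A F ≤ halg A E ∧ ent A F ≤ ent A E :=
  ⟨Pool.Agent.R650.Ent.halg_le H hF hE.1, Pool.Agent.R650.Ent.ent_le H hF hE.1⟩

end Pool.Agent.Results.MP_df8e9b_al.RestrictionBound
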